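import Pool.Agent.Q138.CF.Three

/-!
# Automorphisms acting on `H^{3,1}` by a cube root of unity

Let `X` be a smooth cubic fourfold and `σ` a linear automorphism whose determinant is a primitive
third root of unity (so `σ` acts on the line `H^{3,1}(X)` as a primitive third root of unity). It is
proved that `X` is rational and has an associated K3 surface unless

* every plane `P` in `X` meets its image `σ(P)` in a line (intersection number `-1`), and
* the number of the planes in `X` is `0`, `3`, `9`, `15`, `21` or `27`.

For example `X` is rational with an associated K3 surface if `σ` preserves some plane in `X`.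

The known facts which are used are collected in `H4.IsCohomology` (the lattice `H^4(X, ℤ)`, Voisin's
theorem on the classes of the planes, the discriminants `2` and `6`, Hassett's criterion for cubic
fourfolds containing a plane) and in `Pushes` (the action of `σ` on `H^4(X, ℤ)`).

Idea: `x + σ x + σ² x` is a Hodge class for every class `x`. If all intersection numbers
`T.(h - P)` are even, it follows that `3 h - P - σ P - σ² P` is divisible by two, and then
`P + σ P + σ² P = h`: the orbits of `σ` are lines of the partial geometry of the planes, which
are permuted cyclically by `σ` together with the classes of the planes meeting them.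
-/

set_option autoImplicit false

namespace Pool.Agent.Results.MP_ffd2c1_ag.CubeRootAutomorphisms

open Pool.Agent.Y95.Q Pool.Agent.Q138.CF

/-- **Cubic fourfolds with an automorphism of determinant a primitive third root of unity.** -/
theorem result {X : CubicFourfold} {H : H4 X} (hH : H.IsCohomology) (σ : Aut X)
    (g : (Fin 23 → ℤ) →+ (Fin 23 → ℤ)) (hg : Pushes H σ g) (h3 : σ.det ^ 2 + σ.det + 1 = 0)
    (h : (∃ P : X.Plane, H.ip (H.cl P) (H.cl (σ.move P)) ≠ -1) ∨
      Nat.card X.Plane ∉ ({0, 3, 9, 15, 21, 27} : Finset ℕ)) :
    X.IsRational ∧ H.HasK3 :=
  order_three hH hg h3 h

end Pool.Agent.Results.MP_ffd2c1_ag.CubeRootAutomorphisms
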