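import Pool.Agent.Q76.LG.Many

/-!
# A cubic fourfold of rank at least three has no associated K3 surface or infinitely many degrees

Let `X` be a smooth cubic fourfold. By Hassett's theorem there is a polarised K3 surface `(S, f)` of
degree `d` with a primitive isometric embedding of `H^2(S, ℤ)_pr` in `H^4(X, ℤ)_pr` if and only if `X`
lies in the divisor `C_d` and `d > 6` is not divisible by `4`, `9` or an odd prime number `p` with
`p ≡ 2 mod 3` (`Admissible d`). Here `X` lies in `C_d` if there is a Hodge class `v` such that `h` and
`v` span a saturated group with the discriminant `3 v.v - (h.v)^2 = d`. If the group of Hodge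
classes has rank two there is only one `d` of this kind, admissible or not.

It is proved: if the group of Hodge classes of `X` has rank at least three and `X` lies in `C_d` for one
admissible `d`, then `X` lies in `C_d` for infinitely many admissible `d`.

Idea: an admissible `d` gives an isotropic class `w` in the algebraic Mukai lattice whose products
`F_1`, `F_2` with the two roots of `A_2` are coprime; let `e` be isotropic in the span of `w` and
`A_2` with `(w, e) = 1` and the products `E_1`, `E_2`, and `g` orthogonal to this span. The
transvections with `j c g`, `c = E_2 F_1 - E_1 F_2 ≠ 0`, take `w` to isotropic classes `w_j` with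
coprime products, and the index of the group spanned by `h` and the corresponding class `T_j`
in its saturation is bounded.
-/

namespace Pool.Agent.Results.MP_ffd2c1_ag.InfinitelyManyDegrees

open Pool.Agent.Y95.Q

/-- **A cubic fourfold of rank at least three in one `C_d` with admissible `d` lies in infinitely many
of them.** -/
theorem result {X : CubicFourfold} {H : H4 X} (hH : H.IsCohomology) (hr : 3 ≤ H.rank)
    (h : H.HasK3) :
    {d : ℤ | Admissible d ∧ ∃ v, H.IsHodge v ∧ H.Saturated v ∧ H.disc v = d}.Infinite := by
  refine Set.infinite_of_not_bddAbove ?_
  rintro ⟨B, hB⟩
  obtain ⟨w, h1, h2, h3, h4⟩ := Pool.Agent.Q76.LG.exists_large hH hr h B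
  exact absurd (hB ⟨h3, w, h1, h2, rfl⟩) (not_le.2 h4)

end Pool.Agent.Results.MP_ffd2c1_ag.InfinitelyManyDegrees
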