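import Pool.Agent.Q76.LG.Meyer

/-!
# Cubic fourfolds with a twisted K3 surface: when is there an associated K3 surface?

Let `X` be a smooth cubic fourfold and `disc v = 3 v.v - (h.v)^2` for the Hodge classes `v` in
`H^4(X, ℤ)`. By theorems of Huybrechts and others there is a twisted K3 surface `(S, α)` associated
to `X` (the Kuznetsov component is `D^b(S, α)`) if and only if there is a Hodge class `v` with
`disc v = 2 (m^2 + m n + n^2) ≠ 0`. By Hassett's theorem there is an associated K3 surface if and
only if `X` lies in a divisor `C_d` such that `d > 6` is not divisible by `4`, `9` or an odd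
prime number `p` with `p ≡ 2 mod 3` (`HasK3`).

It is proved that a cubic fourfold with an associated twisted K3 surface has an associated K3
surface if and only if there is no local obstruction: at each of the prime numbers `2`, `3` and
`p ≡ 2 mod 3` some Hodge class satisfies a congruence for its discriminant, where the
Hodge class may depend on the prime number. The proof is a Hasse principle for isotropic
vectors in the algebraic Mukai lattice with a product `1`, for lattices with an isotropic vector.

If the group of Hodge classes of `X` has rank at least four, then there is always an associated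
twisted K3 surface by Meyer's theorem (an indefinite integral quadratic form in five variables has a
nontrivial zero), which is not in Mathlib and is a hypothesis (`Meyer`) of the second part.
-/

namespace Pool.Agent.Results.MP_ffd2c1_ag.LocalCriterion

open Pool.Agent.Y95.Q Pool.Agent.Q76.LG

/-- There is no local obstruction to an associated K3 surface. -/
def LocalConditions {X : CubicFourfold} (H : H4 X) : Prop :=
  (∃ v, H.IsHodge v ∧ ¬ 4 ∣ H.disc v) ∧
    (∃ v, H.IsHodge v ∧ H.disc v % 9 ≠ 0 ∧ H.disc v % 9 ≠ 3) ∧
    ∀ p : ℕ, p.Prime → p ≠ 2 → p % 3 = 2 → ∃ v, H.IsHodge v ∧ ¬ (p : ℤ) ∣ H.disc v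

/-- **The local criterion for the existence of an associated K3 surface**, for cubic fourfolds with an
associated twisted K3 surface and, by Meyer's theorem, for all cubic fourfolds with a group of
Hodge classes of rank at least four. -/
theorem result {X : CubicFourfold} {H : H4 X} (hH : H.IsCohomology) :
    ((∃ v, H.IsHodge v ∧ H.disc v ≠ 0 ∧ ∃ m n : ℤ, H.disc v = 2 * (m ^ 2 + m * n + n ^ 2)) →
      (H.HasK3 ↔ LocalConditions H)) ∧
    (Meyer → 4 ≤ H.rank → (H.HasK3 ↔ LocalConditions H)) :=
  ⟨fun ht => hasK3_iff hH ht, fun hM hr => hasK3_iff hH (exists_twisted hM hH hr)⟩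

end Pool.Agent.Results.MP_ffd2c1_ag.LocalCriterion
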