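import Pool.Agent.Q154.CF.Inv

/-!
# Cubic fourfolds with a symplectic involution and one more Hodge class

Let `X` be a smooth cubic fourfold with a symplectic involution, that is, with a linear automorphism
of order two and determinant one, and let `g` be its action on `H^4(X, ℤ)`. By theorems of Laza and
Zheng and of Marquand the lattice `S` of the classes `v` with `g v = -v` is the lattice `E₈(2)`, and
for the very general `X` with such an involution the Hodge classes are `ℤ h ⊕ S`; such an `X` has
no associated K3 surface. It is proved that the situation changes completely as soon as there is a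
Hodge class `x` which is not the sum of an invariant and an anti-invariant class in `H^4(X, ℤ)`:

1. `X` lies in Hassett's divisor `C_d` for all squarefree numbers `d ≥ disc x` with
   `d ≡ disc x mod 6`, where `disc x = 3 x.x - (h.x)^2`;
2. `X` has an associated K3 surface (so by Hassett's conjecture it should be rational);
3. if `disc x ≤ 42`, then `X` lies in `C_38` or in `C_42`, so it is rational by the theorems
   of Russo and Staglianò.

For example 3. applies if `X` contains a plane, or a cubic scroll, or a quartic scroll, … whose class
is not such a sum.

Proof: `u = x - g x` is in `S` but not in `2 S`; the discriminants of the classes `x + s`, `s ∈ S`, are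
`disc x + (3 / 2) (N - N₀)`, where `N` runs through the norms of the vectors in the class of `u` in
`E₈ / 2 E₈`, and these are all the numbers `2 + 4 k` or all the numbers `4 + 4 k`, `k ≥ 0` (a table of
the 255 classes modulo two, with four orthogonal roots orthogonal to a vector of the class, and
Lagrange's four square theorem).
-/

set_option autoImplicit false

namespace Pool.Agent.Results.MP_ffd2c1_ag.SymplecticInvolutions

open Pool.Agent.Y95.Q Pool.Agent.Q76.FH Pool.Agent.Q154.CF

/-- **Cubic fourfolds with a symplectic involution and a Hodge class which is not the sum of an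
invariant and an anti-invariant class.** -/
theorem result {X : CubicFourfold} {H : H4 X} (hH : H.IsCohomology)
    (g : (Fin 23 → ℤ) →+ (Fin 23 → ℤ)) (hg : IsSympInv H g) (x : Fin 23 → ℤ) (hx : H.IsHodge x)
    (hne : ¬ ∃ y z, x = y + z ∧ g y = y ∧ g z = -z) :
    (∀ d : ℕ, Squarefree d → (d : ℤ) % 6 = H.disc x % 6 → H.disc x ≤ d → InC H d) ∧ H.HasK3 ∧
    (H.disc x ≤ 42 → (∀ d : ℤ, d = 38 ∨ d = 42 → InC H d → X.IsRational) → X.IsRational) := by
  have h : ¬ ∃ w, x - g x = (2 : ℤ) • w := fun h => hne ((sum_iff hg x).1 h)
  refine ⟨fun d h1 h2 h3 => main_inC hH hg hx h h1 h2 h3, main_K3 hH hg hx h, fun h1 h2 => ?_⟩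
  rcases main_small hH hg hx h h1 with ⟨-, h3⟩ | ⟨-, h3⟩
  · exact h2 38 (Or.inl rfl) h3
  · exact h2 42 (Or.inr rfl) h3

end Pool.Agent.Results.MP_ffd2c1_ag.SymplecticInvolutions
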